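import Pool.Agent.X50.LG.Root
import Pool.Agent.X50.LSv.Core
import Pool.Agent.X236.GP.LS

/-!
The larger sieve for sumsets contained in the set of the prime values of a polynomial.
-/

set_option autoImplicit false
set_option maxHeartbeats 4000000

namespace Pool.Agent.X50.LG

open Finset Polynomial Filter Topology
open Pool.Agent.X50.SQ (res tot cd res_nonempty res_card_le tot_nonempty)

/-- partial summation -/
theorem log_sum_ge {g : ℕ → ℝ} (hg : ∀ n, 0 ≤ g n) {c : ℝ} (hc : 0 ≤ c) {n₀ : ℕ} (hn₀ : 1 ≤ n₀)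
    (h : ∀ n, n₀ ≤ n → c * n ≤ ∑ m ∈ Icc 1 n, g m) :
    ∀ Q : ℕ, 1 ≤ Q → c * Real.log Q - c * Real.log (n₀ + 1) ≤ ∑ m ∈ Icc 1 Q, g m / m := by
  have key : ∀ Q : ℕ, n₀ ≤ Q → c * (Real.log (Q + 1) - Real.log (n₀ + 1)) ≤
      ∑ m ∈ Icc 1 Q, g m / m - (∑ m ∈ Icc 1 Q, g m) / Q := by
    intro Q hQ
    induction Q, hQ using Nat.le_induction with
    | base =>
      rw [sub_self, mul_zero, sub_nonneg, sum_div]
      refine sum_le_sum fun m hm => ?_
      rw [mem_Icc] at hm
      have h1 : (0 : ℝ) < m := by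
        have : 0 < m := hm.1
        exact_mod_cast this
      have h2 : (m : ℝ) ≤ n₀ := by exact_mod_cast hm.2
      exact div_le_div_of_nonneg_left (hg m) h1 h2
    | succ Q hQ ih =>
      have hQ0 : (0 : ℝ) < Q := by
        have : 0 < Q := by omega
        exact_mod_cast this
      rw [sum_Icc_succ_top (by omega), sum_Icc_succ_top (by omega)]
      set S := ∑ m ∈ Icc 1 Q, g m / m
      set T := ∑ m ∈ Icc 1 Q, g m with hT
      have h1 : c * Q ≤ T := h Q hQ
      have e1 : S + g (Q + 1) / ((Q + 1 : ℕ) : ℝ) - (T + g (Q + 1)) / ((Q + 1 : ℕ) : ℝ) =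
          (S - T / Q) + T / (Q * (Q + 1)) := by
        push_cast
        field_simp
        ring
      rw [e1]
      have h2 : c / (Q + 1) ≤ T / (Q * (Q + 1)) := by
        rw [div_le_div_iff₀ (by positivity) (by positivity)]
        have := mul_le_mul_of_nonneg_right h1 (show (0 : ℝ) ≤ Q + 1 by positivity)
        calc c * (Q * (Q + 1)) = c * Q * (Q + 1) := by ring
          _ ≤ _ := this
      have h3 : Real.log ((Q : ℝ) + 1 + 1) - Real.log (Q + 1) ≤ 1 / (Q + 1) := by
        rw [← Real.log_div (by positivity) (by positivity)]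
        have := Real.log_le_sub_one_of_pos (show (0 : ℝ) < ((Q : ℝ) + 1 + 1) / (Q + 1) by positivity)
        have e : ((Q : ℝ) + 1 + 1) / (Q + 1) - 1 = 1 / (Q + 1) := by
          field_simp
          ring
        rwa [e] at this
      have h4 := mul_le_mul_of_nonneg_left h3 hc
      have h5 : c * (1 / ((Q : ℝ) + 1)) = c / (Q + 1) := by ring
      push_cast
      nlinarith
  intro Q hQ
  have hQ0 : (0 : ℝ) < Q := by
    have : 0 < Q := hQ
    exact_mod_cast this
  have hS : 0 ≤ ∑ m ∈ Icc 1 Q, g m / m := sum_nonneg fun m _ => div_nonneg (hg m) (Nat.cast_nonneg _)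
  rcases lt_or_ge Q n₀ with h1 | h1
  · have h2 : Real.log Q ≤ Real.log (n₀ + 1) := by
      apply Real.log_le_log hQ0
      have : (Q : ℝ) ≤ n₀ := by exact_mod_cast h1.le
      linarith
    have := mul_le_mul_of_nonneg_left h2 hc
    linarith
  · have h2 := key Q h1
    have h3 : 0 ≤ (∑ m ∈ Icc 1 Q, g m) / Q := div_nonneg (sum_nonneg fun m _ => hg m) hQ0.le
    have h4 : Real.log Q ≤ Real.log (Q + 1) := Real.log_le_log hQ0 (by linarith)
    have := mul_le_mul_of_nonneg_left h4 hc
    linarith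

open Classical in
/-- the logarithmic density of the primes modulo which the polynomial has a root -/
theorem mert_root (f : ℤ[X]) (hf : Irreducible (f.map (Int.castRingHom ℚ))) {δ : ℝ} (hδ0 : 0 ≤ δ)
    (hδ : δ < 1 / (f.natDegree : ℝ)) : ∃ C : ℝ, ∀ Q : ℕ, 1 ≤ Q → δ * Real.log Q - C ≤
      ∑ p ∈ (Icc 1 Q).filter Nat.Prime, if HasRoot f p then Real.log p / p else 0 := by
  obtain ⟨n₀, hn₀⟩ := dens_root f hf (ε := 1 / (f.natDegree : ℝ) - δ) (by linarith)
  have h1 := log_sum_ge (g := fun p => if p.Prime ∧ HasRoot f p then Real.log p else 0)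
    (fun n => by
      split_ifs
      · exact Real.log_natCast_nonneg n
      · exact le_rfl) hδ0 (n₀ := n₀ + 1) (by omega) ?_
  · refine ⟨δ * Real.log (((n₀ + 1 : ℕ) : ℝ) + 1), fun Q hQ => ?_⟩
    refine (h1 Q hQ).trans (le_of_eq ?_)
    rw [sum_filter]
    refine sum_congr rfl fun p _ => ?_
    by_cases hp : p.Prime
    · by_cases hr : HasRoot f p
      · simp [hp, hr]
      · simp [hp, hr]
    · simp [hp]
  · intro n hn
    have h2 := hn₀ n (by omega)
    rw [sub_sub_cancel] at h2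
    refine h2.trans (le_of_eq ?_)
    unfold RP
    rw [sum_filter]
    have h3 : range (n + 1) = insert 0 (Icc 1 n) := by
      ext m
      rw [mem_range, mem_insert, mem_Icc]
      omega
    rw [h3, sum_insert (by simp)]
    simp [Nat.not_prime_zero]

/-- the values are large -/
theorem value_large (f : ℤ[X]) (hd : 0 < f.natDegree) :
    ∃ n₁ : ℕ, ∀ n : ℕ, n₁ ≤ n → n ≤ 2 * (f.eval (n : ℤ)).natAbs := by
  set F : ℝ[X] := f.map (Int.castRingHom ℝ) with hF
  have h1 := Polynomial.isEquivalent_atTop_lead F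
  have h2 := h1.isLittleO.bound (c := 1 / 2) (by norm_num)
  have h3 := (tendsto_natCast_atTop_atTop (R := ℝ)).eventually h2
  obtain ⟨n₁, hn₁⟩ := eventually_atTop.mp h3
  refine ⟨n₁ + 1, fun n hn => ?_⟩
  have h4 := hn₁ n (by omega)
  have hn1 : (1 : ℝ) ≤ n := by
    have : 1 ≤ n := by omega
    exact_mod_cast this
  have hdeg : F.natDegree = f.natDegree := natDegree_map_eq_of_injective (RingHom.injective_int _) f
  have hlead : F.leadingCoeff = (f.leadingCoeff : ℝ) := by
    rw [hF, leadingCoeff_map_of_injective (RingHom.injective_int _)]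
    rfl
  have hev : eval (n : ℝ) F = ((f.eval (n : ℤ) : ℤ) : ℝ) := by
    rw [hF, eval_map]
    have := eval₂_at_apply (p := f) (Int.castRingHom ℝ) (n : ℤ)
    simpa using this
  simp only [Pi.sub_apply, hdeg, hlead] at h4
  rw [hev] at h4
  have ha : (1 : ℝ) ≤ |(f.leadingCoeff : ℝ)| := by
    have : f.leadingCoeff ≠ 0 := by
      rw [Ne, leadingCoeff_eq_zero]
      rintro rfl
      simp at hd
    have h5 : 1 ≤ |f.leadingCoeff| := Int.one_le_abs this
    exact_mod_cast h5
  have hpow : (n : ℝ) ≤ (n : ℝ) ^ f.natDegree := by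
    calc (n : ℝ) = (n : ℝ) ^ 1 := (pow_one _).symm
      _ ≤ _ := pow_le_pow_right₀ hn1 hd
  set v : ℝ := ((f.eval (n : ℤ) : ℤ) : ℝ) with hv
  set w : ℝ := (f.leadingCoeff : ℝ) * (n : ℝ) ^ f.natDegree with hw
  have hw1 : (n : ℝ) ≤ |w| := by
    rw [hw, abs_mul, abs_of_nonneg (show (0 : ℝ) ≤ (n : ℝ) ^ f.natDegree by positivity)]
    nlinarith
  rw [Real.norm_eq_abs, Real.norm_eq_abs] at h4
  have h6 : |w| ≤ |v| + |v - w| := by
    have := abs_sub_abs_le_abs_sub w v
    rw [abs_sub_comm] at this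
    linarith
  have h7 : (n : ℝ) ≤ 2 * |v| := by linarith
  have h8 : |v| = (((f.eval (n : ℤ)).natAbs : ℕ) : ℝ) := by
    rw [hv, Nat.cast_natAbs, Int.cast_abs]
  rw [h8] at h7
  exact_mod_cast h7

/-- balance of the residues -/
theorem balance {k : ℕ} (f : ℤ[X]) (A : Fin k → Finset ℕ) (hne : ∀ i, (A i).Nonempty) {p : ℕ}
    (hp : p.Prime) (hr : HasRoot f p)
    (hbad : ∀ a : Fin k → ℕ, (∀ i, a i ∈ A i) → ¬ ((p : ℤ) ∣ f.eval (((∑ i, a i : ℕ)) : ℤ))) :
    (∑ i, (res (A i) p).card : ℕ) + 2 ≤ p + k := by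
  classical
  have : Fact p.Prime := ⟨hp⟩
  have : NeZero p := ⟨hp.ne_zero⟩
  obtain ⟨x, hx⟩ := hr
  have h1 : tot (fun i => res (A i) p) ⊆ univ.erase x := by
    intro y hy
    rw [mem_erase]
    refine ⟨?_, mem_univ _⟩
    rintro rfl
    unfold tot at hy
    rw [mem_image] at hy
    obtain ⟨g, hg, hgy⟩ := hy
    rw [Fintype.mem_piFinset] at hg
    have hch : ∀ i, ∃ n ∈ A i, (n : ZMod p) = g i := by
      intro i
      have := hg i
      unfold res at this
      rwa [mem_image] at this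
    choose a ha hga using hch
    apply hbad a ha
    rw [← ZMod.intCast_zmod_eq_zero_iff_dvd]
    have h2 := eval₂_at_apply (p := f) (Int.castRingHom (ZMod p)) (((∑ i, a i : ℕ)) : ℤ)
    have h3 : (Int.castRingHom (ZMod p)) (((∑ i, a i : ℕ)) : ℤ) = y := by
      rw [← hgy]
      simp only [Nat.cast_sum, map_sum, eq_intCast, Int.cast_natCast, hga]
    rw [h3, hx] at h2
    simpa using h2.symm
  have h2 := card_le_card h1
  rw [card_erase_of_mem (mem_univ _), card_univ, ZMod.card] at h2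
  have h3 := cd hp (fun i => res (A i) p) fun i => res_nonempty (hne i) p
  have h4 := hp.two_le
  omega

end Pool.Agent.X50.LG
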