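import Pool.Agent.X50.LG.Main

/-!
The bound for the smallest of the sets.
-/

set_option autoImplicit false
set_option maxHeartbeats 4000000

namespace Pool.Agent.X50.LG

open Finset Polynomial Filter Topology
open Pool.Agent.X50.SQ (res tot cd res_nonempty res_card_le tot_nonempty)
open Pool.Agent.Helper923.HMertens (mertens_log)

/-- the primes up to `Q` -/
def PQ (Q : ℕ) : Finset ℕ := (Icc 1 Q).filter Nat.Prime

theorem theta_le (Q : ℕ) : ∑ p ∈ PQ Q, Real.log p ≤ 2 * Q := by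
  have h1 : Chebyshev.theta (Q : ℝ) = ∑ p ∈ PQ Q, Real.log p := by
    unfold Chebyshev.theta PQ
    rw [Nat.floor_natCast]
    rfl
  rw [← h1]
  have h2 := Chebyshev.theta_le_log4_mul_x (x := (Q : ℝ)) (Nat.cast_nonneg _)
  have h3 : Real.log 4 ≤ 2 := by
    have := Real.log_le_sub_one_of_pos (show (0 : ℝ) < 4 / 2 by norm_num)
    have h4 : Real.log 4 = 2 * Real.log 2 := by
      rw [show (4 : ℝ) = 2 ^ 2 by norm_num, Real.log_pow]
      norm_num
    rw [h4]
    have := Real.log_two_lt_d9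
    linarith
  have h5 : (0 : ℝ) ≤ Q := Nat.cast_nonneg _
  nlinarith

open Classical in
/-- the sum over the sets of the quantities of the larger sieve -/
theorem total {k : ℕ} (hk : 1 ≤ k) (f : ℤ[X]) (hf : Irreducible (f.map (Int.castRingHom ℚ)))
    {δ : ℝ} (hδ0 : 0 ≤ δ) (hδ : δ < 1 / (f.natDegree : ℝ)) :
    ∃ C : ℝ, ∀ Q : ℕ, 1 ≤ Q → ∀ A : Fin k → Finset ℕ, (∀ i, (A i).Nonempty) →
      (∀ p ∈ PQ Q, ∀ a : Fin k → ℕ, (∀ i, a i ∈ A i) →
        ¬ ((p : ℤ) ∣ f.eval (((∑ i, a i : ℕ)) : ℤ))) →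
      ∃ i, (1 + ((k : ℝ) - 1) * δ) * Real.log Q - C ≤
        ∑ p ∈ PQ Q, Real.log p / ((res (A i) p).card : ℝ) := by
  obtain ⟨C₁, hC₁⟩ := mert_root f hf hδ0 hδ
  obtain ⟨C₂, hC₂⟩ := mertens_log
  obtain ⟨C₃, hC₃0, hC₃⟩ := Pool.Agent.X236.GP.sum_three_half
  have hk1 : (1 : ℝ) ≤ k := by exact_mod_cast hk
  refine ⟨C₂ + ((k : ℝ) - 1) * C₁ + (k : ℝ) ^ 2 * C₃, fun Q hQ A hne hbad => ?_⟩
  by_contra hcon
  push Not at hcon
  have h1 : ∑ i : Fin k, ∑ p ∈ PQ Q, Real.log p / ((res (A i) p).card : ℝ) <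
      ∑ _i : Fin k, ((1 + ((k : ℝ) - 1) * δ) * Real.log Q -
        (C₂ + ((k : ℝ) - 1) * C₁ + (k : ℝ) ^ 2 * C₃)) := by
    have : Nonempty (Fin k) := ⟨⟨0, hk⟩⟩
    exact sum_lt_sum_of_nonempty univ_nonempty fun i _ => hcon i
  rw [sum_const, card_univ, Fintype.card_fin, nsmul_eq_mul, sum_comm] at h1
  have h2 : ∑ p ∈ PQ Q, (k * (Real.log p / p) +
      ((k : ℝ) ^ 2 - k) * (if HasRoot f p then Real.log p / p else 0) -
      (k : ℝ) ^ 3 * (Real.log p / (p * Real.sqrt p))) ≤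
      ∑ p ∈ PQ Q, ∑ i : Fin k, Real.log p / ((res (A i) p).card : ℝ) := by
    refine sum_le_sum fun p hp => ?_
    have hpp : p.Prime := (mem_filter.mp hp).2
    have hp0 : (0 : ℝ) < p := by exact_mod_cast hpp.pos
    have hp1 : (1 : ℝ) ≤ p := by exact_mod_cast hpp.one_lt.le
    have hl := Real.log_natCast_nonneg p
    have hcard : ∀ i, (0 : ℝ) < ((res (A i) p).card : ℝ) := fun i => by
      exact_mod_cast card_pos.mpr (res_nonempty (hne i) p)
    have hnu : (0 : ℝ) < ∑ i : Fin k, ((res (A i) p).card : ℝ) := by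
      have : Nonempty (Fin k) := ⟨⟨0, hk⟩⟩
      exact sum_pos (fun i _ => hcard i) univ_nonempty
    have e1 : (k : ℝ) ^ 2 / ∑ i : Fin k, ((res (A i) p).card : ℝ) ≤
        ∑ i : Fin k, 1 / ((res (A i) p).card : ℝ) := by
      have := sq_sum_div_le_sum_sq_div (univ : Finset (Fin k)) (fun _ => (1 : ℝ))
        (g := fun i => ((res (A i) p).card : ℝ)) (fun i _ => hcard i)
      simpa using this
    have e2 : ∑ i : Fin k, Real.log p / ((res (A i) p).card : ℝ) =
        Real.log p * ∑ i : Fin k, 1 / ((res (A i) p).card : ℝ) := by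
      rw [mul_sum]
      exact sum_congr rfl fun i _ => by ring
    rw [e2]
    have hs0 : 0 < Real.sqrt p := Real.sqrt_pos.mpr hp0
    have hs1 : Real.sqrt p ≤ p := by
      rw [Real.sqrt_le_left hp0.le]
      nlinarith
    have e3 : (k : ℝ) * (1 / p) + ((k : ℝ) ^ 2 - k) * (if HasRoot f p then 1 / (p : ℝ) else 0) -
        (k : ℝ) ^ 3 * (1 / (p * Real.sqrt p)) ≤ (k : ℝ) ^ 2 / ∑ i : Fin k, ((res (A i) p).card : ℝ) := by
      have e5 : 0 ≤ (k : ℝ) ^ 3 * (1 / (p * Real.sqrt p)) := by positivity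
      by_cases hr : HasRoot f p
      · rw [if_pos hr]
        have hb := balance f A hne hpp hr (fun a ha => hbad p hp a ha)
        have hb' : ∑ i : Fin k, ((res (A i) p).card : ℝ) ≤ p + k := by
          have : ((∑ i, (res (A i) p).card : ℕ) : ℝ) + 2 ≤ p + k := by exact_mod_cast hb
          rw [Nat.cast_sum] at this
          linarith
        have e4 : (k : ℝ) ^ 2 / (p + k) ≤ (k : ℝ) ^ 2 / ∑ i : Fin k, ((res (A i) p).card : ℝ) :=
          div_le_div_of_nonneg_left (by positivity) hnu hb'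
        refine le_trans ?_ e4
        have e6 : (k : ℝ) ^ 2 * (1 / p) - (k : ℝ) ^ 3 * (1 / (p * p)) ≤ (k : ℝ) ^ 2 / (p + k) := by
          rw [le_div_iff₀ (by positivity)]
          have : ((k : ℝ) ^ 2 * (1 / p) - (k : ℝ) ^ 3 * (1 / (p * p))) * (p + k) =
              (k : ℝ) ^ 2 - (k : ℝ) ^ 4 / (p * p) := by
            field_simp
            ring
          rw [this]
          have : 0 ≤ (k : ℝ) ^ 4 / (p * p) := by positivity
          linarith
        have e7 : 1 / ((p : ℝ) * p) ≤ 1 / (p * Real.sqrt p) :=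
          one_div_le_one_div_of_le (by positivity) (mul_le_mul_of_nonneg_left hs1 hp0.le)
        have e8 := mul_le_mul_of_nonneg_left e7 (show (0 : ℝ) ≤ (k : ℝ) ^ 3 by positivity)
        have e9 : (k : ℝ) * (1 / p) + ((k : ℝ) ^ 2 - k) * (1 / (p : ℝ)) = (k : ℝ) ^ 2 * (1 / p) := by ring
        linarith
      · rw [if_neg hr, mul_zero, add_zero]
        have hb' : ∑ i : Fin k, ((res (A i) p).card : ℝ) ≤ k * p := by
          calc ∑ i : Fin k, ((res (A i) p).card : ℝ) ≤ ∑ _i : Fin k, (p : ℝ) :=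
                sum_le_sum fun i _ => by exact_mod_cast res_card_le hpp.pos
            _ = k * p := by simp
        have e4 : (k : ℝ) ^ 2 / (k * p) ≤ (k : ℝ) ^ 2 / ∑ i : Fin k, ((res (A i) p).card : ℝ) :=
          div_le_div_of_nonneg_left (by positivity) hnu hb'
        have e6 : (k : ℝ) ^ 2 / (k * p) = k * (1 / p) := by
          field_simp
        linarith
    have e10 := mul_le_mul_of_nonneg_left (e3.trans e1) hl
    refine le_trans (le_of_eq ?_) e10
    split_ifs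
    · ring
    · ring
  rw [sum_sub_distrib, sum_add_distrib, ← mul_sum, ← mul_sum, ← mul_sum] at h2
  have h3 := (abs_le.mp (hC₂ Q hQ)).1
  have h4 := hC₁ Q hQ
  have h5 := hC₃ Q
  have h3' : Real.log Q - C₂ ≤ ∑ p ∈ PQ Q, Real.log p / p := by
    unfold PQ
    linarith
  have h5' : ∑ p ∈ PQ Q, Real.log p / (p * Real.sqrt p) ≤ C₃ := h5
  have h4' : δ * Real.log Q - C₁ ≤ ∑ p ∈ PQ Q, (if HasRoot f p then Real.log p / p else 0) := h4
  have g3 := mul_le_mul_of_nonneg_left h3' (show (0 : ℝ) ≤ (k : ℝ) by positivity)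
  have g4 := mul_le_mul_of_nonneg_left h4' (show (0 : ℝ) ≤ (k : ℝ) ^ 2 - k by nlinarith)
  have g5 := mul_le_mul_of_nonneg_left h5' (show (0 : ℝ) ≤ (k : ℝ) ^ 3 by positivity)
  have e : (k : ℝ) * ((1 + ((k : ℝ) - 1) * δ) * Real.log Q -
        (C₂ + ((k : ℝ) - 1) * C₁ + (k : ℝ) ^ 2 * C₃)) =
      (k : ℝ) * (Real.log Q - C₂) + ((k : ℝ) ^ 2 - k) * (δ * Real.log Q - C₁) - (k : ℝ) ^ 3 * C₃ := by
    ring
  rw [e] at h1
  linarith

open Classical in
/-- **The smallest set.** -/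
theorem min_bound {k : ℕ} (hk : 1 ≤ k) (f : ℤ[X]) (hf : Irreducible (f.map (Int.castRingHom ℚ)))
    {δ : ℝ} (hδ0 : 0 ≤ δ) (hδ : δ < 1 / (f.natDegree : ℝ)) :
    ∃ C : ℝ, 0 < C ∧ ∀ N : ℕ, 1 ≤ N → ∀ (U : Fin k → ℕ) (A : Fin k → Finset ℕ),
      (∀ i, A i ⊆ Ioc (U i) (U i + N)) →
      (∀ a : Fin k → ℕ, (∀ i, a i ∈ A i) → (f.eval (((∑ i, a i : ℕ)) : ℤ)).natAbs.Prime) →
      ∃ i, ((A i).card : ℝ) ≤ C * (N : ℝ) ^ (1 / (1 + ((k : ℝ) - 1) * δ)) := by
  obtain ⟨C₀, hC₀⟩ := total hk f hf hδ0 hδ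
  have hd : 0 < f.natDegree := by
    have := hf.natDegree_pos
    rwa [natDegree_map_eq_of_injective (RingHom.injective_int _) f] at this
  obtain ⟨n₁, hn₁⟩ := value_large f hd
  have hk1 : (1 : ℝ) ≤ k := by exact_mod_cast hk
  set θ : ℝ := 1 + ((k : ℝ) - 1) * δ with hθ
  have hθ1 : 1 ≤ θ := by
    rw [hθ]
    have : 0 ≤ ((k : ℝ) - 1) * δ := mul_nonneg (by linarith) hδ0
    linarith
  set C₅ : ℝ := Real.exp ((|C₀| + 1 + Real.log 2) / θ) with hC₅
  have hC₅1 : 1 ≤ C₅ := by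
    rw [hC₅]
    apply Real.one_le_exp
    have := Real.log_nonneg (show (1 : ℝ) ≤ 2 by norm_num)
    have := abs_nonneg C₀
    positivity
  refine ⟨8 * C₅ + n₁ + 10, by positivity, ?_⟩
  intro N hN U A hA hgood
  have hN1 : (1 : ℝ) ≤ N := by exact_mod_cast hN
  have hN0 : (0 : ℝ) < N := by linarith
  set X : ℝ := (N : ℝ) ^ (1 / θ) with hX
  have hX1 : 1 ≤ X := Real.one_le_rpow hN1 (by positivity)
  set Q : ℕ := ⌈C₅ * X⌉₊ with hQ
  have hQle : (Q : ℝ) ≤ C₅ * X + 1 := (Nat.ceil_lt_add_one (by positivity)).le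
  have hQge : C₅ * X ≤ Q := Nat.le_ceil _
  have hCX : 1 ≤ C₅ * X := by nlinarith
  have hQ1 : 1 ≤ Q := by
    have : (1 : ℝ) ≤ Q := hCX.trans hQge
    exact_mod_cast this
  have hQ0 : (0 : ℝ) < Q := by exact_mod_cast hQ1
  by_contra hcon
  push Not at hcon
  set Q' : ℕ := 2 * Q + n₁ with hQ'
  set A' : Fin k → Finset ℕ := fun i => (A i).filter fun n => Q' < n with hA'
  have hcardA' : ∀ i, 2 * (Q : ℝ) < ((A' i).card : ℝ) := by
    intro i
    have h1 : (A i).card ≤ (A' i).card + (Q' + 1) := by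
      have h2 : A i ⊆ A' i ∪ range (Q' + 1) := by
        intro n hn
        rw [mem_union, hA', mem_filter, mem_range]
        by_cases h : Q' < n
        · exact Or.inl ⟨hn, h⟩
        · exact Or.inr (by omega)
      have h3 := card_le_card h2
      have h4 := card_union_le (A' i) (range (Q' + 1))
      rw [card_range] at h4
      omega
    have h5 : ((A i).card : ℝ) ≤ (A' i).card + (2 * Q + n₁ + 1) := by
      have : (A i).card ≤ (A' i).card + (2 * Q + n₁ + 1) := by omega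
      exact_mod_cast this
    have h6 := hcon i
    have h7 : (8 * C₅ + n₁ + 10) * X ≥ 8 * (C₅ * X) + n₁ + 10 := by
      have : (n₁ : ℝ) * X ≥ n₁ * 1 := mul_le_mul_of_nonneg_left hX1 (Nat.cast_nonneg _)
      nlinarith
    linarith
  have hne : ∀ i, (A' i).Nonempty := by
    intro i
    rw [← card_pos]
    have := hcardA' i
    have h2 : (0 : ℝ) < ((A' i).card : ℝ) := by linarith
    exact_mod_cast h2
  have hbad : ∀ p ∈ PQ Q, ∀ a : Fin k → ℕ, (∀ i, a i ∈ A' i) →
      ¬ ((p : ℤ) ∣ f.eval (((∑ i, a i : ℕ)) : ℤ)) := by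
    intro p hp a ha hdvd
    unfold PQ at hp
    rw [mem_filter, mem_Icc] at hp
    have h1 : ∀ i, a i ∈ A i := fun i => (mem_filter.mp (ha i)).1
    have h2 := hgood a h1
    have h3 : p ∣ (f.eval (((∑ i, a i : ℕ)) : ℤ)).natAbs := Int.natCast_dvd.mp hdvd
    have h4 := (Nat.prime_dvd_prime_iff_eq hp.2 h2).mp h3
    have h5 : Q' < ∑ i, a i := by
      have h6 : a ⟨0, hk⟩ ≤ ∑ i, a i := single_le_sum (fun j _ => Nat.zero_le _) (mem_univ _)
      have h7 := (mem_filter.mp (ha ⟨0, hk⟩)).2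
      omega
    have h6 := hn₁ (∑ i, a i) (by omega)
    omega
  obtain ⟨i, hi⟩ := hC₀ Q hQ1 A' hne hbad
  -- the larger sieve for the set `A' i`
  set S : Finset ℤ := (A' i).image fun n : ℕ => (n : ℤ) - (U i : ℤ) with hS
  have hScard : S.card = (A' i).card := by
    rw [hS]
    apply card_image_of_injective
    intro a b h
    have : (a : ℤ) - U i = (b : ℤ) - U i := h
    have : (a : ℤ) = b := by linarith
    exact_mod_cast this
  have h1 := Pool.Agent.X236.GP.larger (P := PQ Q) (fun p hp => (mem_filter.mp hp).2) (S := S)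
    (X := (N : ℝ)) hN1 ?_ (fun p => ((res (A' i) p).card : ℝ)) ?_ ?_
  · rw [hScard] at h1
    have h2 : 1 ≤ ∑ p ∈ PQ Q, Real.log p / ((res (A' i) p).card : ℝ) - Real.log (2 * N) := by
      have h3 : (|C₀| + 1 + Real.log 2) + Real.log N ≤ θ * Real.log Q := by
        have h4 : Real.log (C₅ * X) ≤ Real.log Q := Real.log_le_log (by positivity) hQge
        rw [Real.log_mul (by positivity) (by positivity), hC₅, Real.log_exp, hX, Real.log_rpow hN0] at h4
        have h5 := mul_le_mul_of_nonneg_left h4 (show (0 : ℝ) ≤ θ by linarith)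
        have h6 : θ * ((|C₀| + 1 + Real.log 2) / θ + 1 / θ * Real.log N) =
            (|C₀| + 1 + Real.log 2) + Real.log N := by
          have : θ ≠ 0 := by linarith
          field_simp
        linarith
      have h7 : Real.log (2 * N) = Real.log 2 + Real.log N := Real.log_mul (by norm_num) hN0.ne'
      have h8 := le_abs_self C₀
      linarith
    have h3 := theta_le Q
    have h4 : ((A' i).card : ℝ) ≤ 2 * Q := by
      have : ((A' i).card : ℝ) * 1 ≤ ((A' i).card : ℝ) *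
          (∑ p ∈ PQ Q, Real.log p / ((res (A' i) p).card : ℝ) - Real.log (2 * N)) :=
        mul_le_mul_of_nonneg_left h2 (Nat.cast_nonneg _)
      linarith
    have := hcardA' i
    linarith
  · intro q hq
    rw [hS, mem_image] at hq
    obtain ⟨n, hn, rfl⟩ := hq
    have h2 := hA i (mem_filter.mp hn).1
    rw [mem_Ioc] at h2
    have h3 : (U i : ℝ) < n := by exact_mod_cast h2.1
    have h4 : (n : ℝ) ≤ U i + N := by exact_mod_cast h2.2
    rw [abs_le]
    push_cast
    constructor <;> linarith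
  · intro p _
    have := card_pos.mpr (res_nonempty (hne i) p)
    exact_mod_cast this
  · intro p hp
    have hpp : p.Prime := (mem_filter.mp hp).2
    have h2 : (S.image fun q : ℤ => (q : ZMod p)) ⊆ (res (A' i) p).image fun x => x - (U i : ZMod p) := by
      intro x hx
      rw [mem_image] at hx
      obtain ⟨q, hq, rfl⟩ := hx
      rw [hS, mem_image] at hq
      obtain ⟨n, hn, rfl⟩ := hq
      rw [mem_image]
      refine ⟨(n : ZMod p), mem_image_of_mem _ hn, ?_⟩
      push_cast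
      rfl
    have h3 := (card_le_card h2).trans card_image_le
    exact_mod_cast h3

end Pool.Agent.X50.LG
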