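import Pool.Agent.X50.LG.Min
import Pool.Agent.X50.LSv.Four

/-!
The bound for two of the sets.
-/

set_option autoImplicit false
set_option maxHeartbeats 4000000

namespace Pool.Agent.X50.LG

open Finset Polynomial Filter Topology
open Pool.Agent.X50.SQ (res tot cd res_nonempty res_card_le tot_nonempty Dens PP mem_PP core)

open Classical in
theorem dens_zero (f : ℤ[X]) (hf : Irreducible (f.map (Int.castRingHom ℚ))) :
    Dens (HasRoot f) 0 := by
  have hd : 0 < f.natDegree := by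
    have := hf.natDegree_pos
    rwa [natDegree_map_eq_of_injective (RingHom.injective_int _) f] at this
  have hd0 : (0 : ℝ) < f.natDegree := by exact_mod_cast hd
  constructor
  · refine ⟨0, fun y _ => ?_⟩
    rw [zero_mul, sub_zero]
    exact sum_nonneg fun p _ => by positivity
  · obtain ⟨n₀, hn₀⟩ := dens_root f hf (ε := 1 / (2 * (f.natDegree : ℝ))) (by positivity)
    refine ⟨1 / (2 * (f.natDegree : ℝ)), n₀, by positivity, fun Y hY => ?_⟩
    have h1 := hn₀ Y hY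
    have h2 : 1 / (f.natDegree : ℝ) - 1 / (2 * (f.natDegree : ℝ)) = 1 / (2 * (f.natDegree : ℝ)) := by
      field_simp
      norm_num
    rw [h2] at h1
    refine h1.trans (le_of_eq ?_)
    refine sum_congr ?_ fun _ _ => rfl
    ext p
    unfold RP
    rw [mem_filter, mem_range, mem_PP]
    constructor
    · rintro ⟨h3, h4⟩
      exact ⟨⟨h4.1.pos, by omega⟩, h4⟩
    · rintro ⟨h3, h4⟩
      exact ⟨by omega, h4⟩

/-- one of the sets consists of large numbers -/
theorem pair_core (f : ℤ[X]) (hf : Irreducible (f.map (Int.castRingHom ℚ))) {n₁ : ℕ}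
    (hn₁ : ∀ n : ℕ, n₁ ≤ n → n ≤ 2 * (f.eval (n : ℤ)).natAbs) :
    ∃ (C : ℝ) (N₀ : ℕ), 0 < C ∧ ∀ N : ℕ, N₀ ≤ N → ∀ (U V : ℕ) (A B : Finset ℕ),
      A ⊆ Ioc U (U + N) → B ⊆ Ioc V (V + N) → A.Nonempty → B.Nonempty →
      (∀ a ∈ A, 2 * Nat.sqrt N + n₁ < a) →
      (∀ a ∈ A, ∀ b ∈ B, (f.eval ((a + b : ℕ) : ℤ)).natAbs.Prime) →
      (A.card : ℝ) * B.card ≤ C * N * (Real.log N) ^ (2 : ℝ) := by
  classical
  obtain ⟨C, N₀, hC, h⟩ := core (𝔓 := HasRoot f) le_rfl (dens_zero f hf) 2 le_rfl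
  refine ⟨C, N₀, hC, ?_⟩
  intro N hN U V A B hA hB hA0 hB0 hlarge hgood
  have h1 := h N hN ![U, V] ![A, B] ?_ ?_ ?_
  · rw [Fin.prod_univ_two] at h1
    simp only [Matrix.cons_val_zero, Matrix.cons_val_one] at h1
    have e1 : ((2 : ℕ) : ℝ) / 2 = 1 := by norm_num
    have e2 : ((2 : ℕ) : ℝ) * (1 - (((2 : ℕ) : ℝ) - 1) * 0) = 2 := by norm_num
    rw [e1, e2, Real.rpow_one] at h1
    exact h1
  · intro i
    fin_cases i
    · exact hA
    · exact hB
  · intro i
    fin_cases i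
    · exact hA0
    · exact hB0
  · intro p hp
    rw [mem_PP] at hp
    refine balance f ![A, B] ?_ hp.2.1 hp.2.2 ?_
    · intro i
      fin_cases i
      · exact hA0
      · exact hB0
    · intro a ha hdvd
      have ha0 : a 0 ∈ A := ha 0
      have ha1 : a 1 ∈ B := ha 1
      rw [Fin.sum_univ_two] at hdvd
      have h2 := hgood (a 0) ha0 (a 1) ha1
      have h3 : p ∣ (f.eval ((a 0 + a 1 : ℕ) : ℤ)).natAbs := Int.natCast_dvd.mp hdvd
      have h4 := (Nat.prime_dvd_prime_iff_eq hp.2.1 h2).mp h3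
      have h5 := hlarge (a 0) ha0
      have h6 := hn₁ (a 0 + a 1) (by omega)
      omega

/-- **Two sets.** -/
theorem pair_bound (f : ℤ[X]) (hf : Irreducible (f.map (Int.castRingHom ℚ))) :
    ∃ C : ℝ, 0 < C ∧ ∀ N : ℕ, 1 ≤ N → ∀ (U V : ℕ) (A B : Finset ℕ),
      A ⊆ Ioc U (U + N) → B ⊆ Ioc V (V + N) →
      (∀ a ∈ A, ∀ b ∈ B, (f.eval ((a + b : ℕ) : ℤ)).natAbs.Prime) →
      (A.card : ℝ) * B.card ≤ C * N * (1 + Real.log N) ^ 2 := by
  have hd : 0 < f.natDegree := by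
    have := hf.natDegree_pos
    rwa [natDegree_map_eq_of_injective (RingHom.injective_int _) f] at this
  obtain ⟨n₁, hn₁⟩ := value_large f hd
  obtain ⟨C, N₀, hC, h⟩ := pair_core f hf hn₁
  refine ⟨2 * C + N₀ + 4 * ((n₁ : ℝ) + 3) ^ 2, by positivity, ?_⟩
  intro N hN U V A B hA hB hgood
  have hN1 : (1 : ℝ) ≤ N := by exact_mod_cast hN
  have hlog : 0 ≤ Real.log N := Real.log_nonneg hN1
  have hL : (1 : ℝ) ≤ (1 + Real.log N) ^ 2 := by nlinarith
  have hcA : (A.card : ℝ) ≤ N := by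
    have := card_le_card hA
    rw [Nat.card_Ioc] at this
    have h2 : A.card ≤ N := by omega
    exact_mod_cast h2
  have hcB : (B.card : ℝ) ≤ N := by
    have := card_le_card hB
    rw [Nat.card_Ioc] at this
    have h2 : B.card ≤ N := by omega
    exact_mod_cast h2
  have hA0 : (0 : ℝ) ≤ A.card := Nat.cast_nonneg _
  have hB0 : (0 : ℝ) ≤ B.card := Nat.cast_nonneg _
  -- small `N`
  rcases lt_or_ge N N₀ with hNs | hNs
  · have h1 : (N : ℝ) ≤ N₀ := by exact_mod_cast hNs.le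
    calc (A.card : ℝ) * B.card ≤ N₀ * N := mul_le_mul (hcA.trans h1) hcB hB0 (Nat.cast_nonneg _)
      _ ≤ (2 * C + N₀ + 4 * ((n₁ : ℝ) + 3) ^ 2) * N * 1 := by
          rw [mul_one]
          refine mul_le_mul_of_nonneg_right ?_ (Nat.cast_nonneg _)
          have : 0 ≤ 2 * C + 4 * ((n₁ : ℝ) + 3) ^ 2 := by positivity
          linarith
      _ ≤ _ := mul_le_mul_of_nonneg_left hL (by positivity)
  set T : ℕ := 2 * Nat.sqrt N + n₁ with hT
  have hTN : ((T : ℝ) + 1) ^ 2 ≤ ((n₁ : ℝ) + 3) ^ 2 * N := by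
    have e1 : ((Nat.sqrt N : ℕ) : ℝ) ^ 2 ≤ N := by exact_mod_cast Nat.sqrt_le' N
    have e2 : (1 : ℝ) ≤ Nat.sqrt N := by
      have : 1 ≤ Nat.sqrt N := Nat.sqrt_pos.mpr hN
      exact_mod_cast this
    have e3 : (T : ℝ) + 1 ≤ ((n₁ : ℝ) + 3) * Nat.sqrt N := by
      rw [hT]
      push_cast
      nlinarith [Nat.cast_nonneg (α := ℝ) n₁]
    calc ((T : ℝ) + 1) ^ 2 ≤ (((n₁ : ℝ) + 3) * Nat.sqrt N) ^ 2 :=
          pow_le_pow_left₀ (by positivity) e3 2
      _ = ((n₁ : ℝ) + 3) ^ 2 * ((Nat.sqrt N : ℕ) : ℝ) ^ 2 := by ring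
      _ ≤ _ := mul_le_mul_of_nonneg_left e1 (by positivity)
  -- one big set
  have hbig : ∀ (U V : ℕ) (A B : Finset ℕ), A ⊆ Ioc U (U + N) → B ⊆ Ioc V (V + N) →
      (∀ a ∈ A, ∀ b ∈ B, (f.eval ((a + b : ℕ) : ℤ)).natAbs.Prime) → 2 * (T + 1) < A.card →
      (A.card : ℝ) * B.card ≤ 2 * C * N * (1 + Real.log N) ^ 2 := by
    intro U V A B hA hB hgood hc
    rcases B.eq_empty_or_nonempty with hBe | hBn
    · rw [hBe, card_empty, Nat.cast_zero, mul_zero]
      positivity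
    set A' := A.filter fun n => T < n with hA'
    have h1 : A.card ≤ A'.card + (T + 1) := by
      have h2 : A ⊆ A' ∪ range (T + 1) := by
        intro n hn
        rw [mem_union, hA', mem_filter, mem_range]
        by_cases h : T < n
        · exact Or.inl ⟨hn, h⟩
        · exact Or.inr (by omega)
      have h3 := card_le_card h2
      have h4 := card_union_le A' (range (T + 1))
      rw [card_range] at h4
      omega
    have h5 : A'.Nonempty := by
      rw [← card_pos]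
      omega
    have h6 := h N hNs U V A' B ((filter_subset _ _).trans hA) hB h5 hBn
      (fun a ha => (mem_filter.mp ha).2) (fun a ha b hb => hgood a (mem_filter.mp ha).1 b hb)
    have h7 : (A.card : ℝ) ≤ 2 * A'.card := by
      have : A.card ≤ 2 * A'.card := by omega
      exact_mod_cast this
    have h8 : (Real.log N) ^ (2 : ℝ) ≤ (1 + Real.log N) ^ 2 := by
      rw [Real.rpow_two]
      nlinarith
    have h9 : (0 : ℝ) ≤ B.card := Nat.cast_nonneg _
    calc (A.card : ℝ) * B.card ≤ (2 * A'.card) * B.card := mul_le_mul_of_nonneg_right h7 h9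
      _ = 2 * ((A'.card : ℝ) * B.card) := by ring
      _ ≤ 2 * (C * N * (Real.log N) ^ (2 : ℝ)) := by linarith
      _ = 2 * C * N * (Real.log N) ^ (2 : ℝ) := by ring
      _ ≤ _ := mul_le_mul_of_nonneg_left h8 (by positivity)
  have hfin : ∀ x : ℝ, x ≤ 2 * C * N * (1 + Real.log N) ^ 2 →
      x ≤ (2 * C + N₀ + 4 * ((n₁ : ℝ) + 3) ^ 2) * N * (1 + Real.log N) ^ 2 := by
    intro x hx
    refine hx.trans ?_
    refine mul_le_mul_of_nonneg_right ?_ (by positivity)
    refine mul_le_mul_of_nonneg_right ?_ (Nat.cast_nonneg _)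
    have : (0 : ℝ) ≤ N₀ + 4 * ((n₁ : ℝ) + 3) ^ 2 := by positivity
    linarith
  rcases lt_or_ge (2 * (T + 1)) A.card with h1 | h1
  · exact hfin _ (hbig U V A B hA hB hgood h1)
  rcases lt_or_ge (2 * (T + 1)) B.card with h2 | h2
  · have h3 := hbig V U B A hB hA (fun b hb a ha => by
      rw [add_comm]
      exact hgood a ha b hb) h2
    rw [mul_comm] at h3
    exact hfin _ h3
  · have e1 : (A.card : ℝ) ≤ 2 * (T + 1) := by exact_mod_cast h1
    have e2 : (B.card : ℝ) ≤ 2 * (T + 1) := by exact_mod_cast h2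
    calc (A.card : ℝ) * B.card ≤ (2 * (T + 1)) * (2 * (T + 1)) := mul_le_mul e1 e2 hB0 (by positivity)
      _ = 4 * ((T : ℝ) + 1) ^ 2 := by ring
      _ ≤ 4 * (((n₁ : ℝ) + 3) ^ 2 * N) := by linarith
      _ ≤ (2 * C + N₀ + 4 * ((n₁ : ℝ) + 3) ^ 2) * N * 1 := by
          have : (0 : ℝ) ≤ (2 * C + N₀) * N := by positivity
          linarith
      _ ≤ _ := mul_le_mul_of_nonneg_left hL (by positivity)

end Pool.Agent.X50.LG
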