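import Pool.Agent.H484R2.Pit
import Pool.Agent.H484R2.Start
import Pool.Agent.H332R2.PIT.Main

/-!
The primes modulo which an irreducible polynomial has a root.
-/

set_option autoImplicit false
set_option maxHeartbeats 4000000

namespace Pool.Agent.X50.LG

open Finset Polynomial NumberField Filter Topology

/-- the polynomial has a root modulo `p` -/
def HasRoot (f : ℤ[X]) (p : ℕ) : Prop := ∃ x : ZMod p, eval₂ (Int.castRingHom (ZMod p)) x f = 0

theorem root_of_hom {K : Type} [Field K] [NumberField K] (f : ℤ[X]) (θ : K)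
    (hθ : aeval θ f = 0) {p : ℕ} (hp : p.Prime) (ha : ¬ ((p : ℤ) ∣ f.leadingCoeff))
    (φ : 𝓞 K →+* ZMod p) : HasRoot f p := by
  have : Fact p.Prime := ⟨hp⟩
  have h1 : IsIntegral ℤ (f.leadingCoeff • θ) := isIntegral_leadingCoeff_smul f θ hθ
  set y : 𝓞 K := ⟨f.leadingCoeff • θ, h1⟩ with hy
  set a : ℤ := f.leadingCoeff with hadef
  have h2 : aeval y (scaleRoots f a) = 0 := by
    have h3 : algebraMap (𝓞 K) K (aeval y (scaleRoots f a)) = 0 := by
      rw [← aeval_algebraMap_apply]
      have h4 : algebraMap (𝓞 K) K y = (algebraMap ℤ K a) * θ := by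
        have : algebraMap (𝓞 K) K y = a • θ := rfl
        rw [this, Algebra.smul_def]
      rw [h4, aeval_def, scaleRoots_eval₂_mul, ← aeval_def, hθ, mul_zero]
    exact (FaithfulSMul.algebraMap_injective (𝓞 K) K) (by rw [h3, map_zero])
  have h5 : eval₂ (Int.castRingHom (ZMod p)) (φ y) (scaleRoots f a) = 0 := by
    have h6 := congrArg φ h2
    rw [map_zero, aeval_def, hom_eval₂] at h6
    have h7 : φ.comp (algebraMap ℤ (𝓞 K)) = Int.castRingHom (ZMod p) := RingHom.ext_int _ _
    rwa [h7] at h6
  have ha0 : (Int.castRingHom (ZMod p)) a ≠ 0 := by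
    intro h
    apply ha
    rw [← ZMod.intCast_zmod_eq_zero_iff_dvd]
    exact_mod_cast h
  refine ⟨((Int.castRingHom (ZMod p)) a)⁻¹ * φ y, ?_⟩
  have h8 : φ y = (Int.castRingHom (ZMod p)) a * (((Int.castRingHom (ZMod p)) a)⁻¹ * φ y) := by
    rw [← mul_assoc, mul_inv_cancel₀ ha0, one_mul]
  rw [h8, scaleRoots_eval₂_mul] at h5
  exact (mul_eq_zero.mp h5).resolve_left (pow_ne_zero _ ha0)

open Classical in
/-- the primes up to `n` modulo which the polynomial has a root -/
noncomputable def RP (f : ℤ[X]) (n : ℕ) : Finset ℕ :=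
  (range (n + 1)).filter fun p => p.Prime ∧ HasRoot f p

theorem dens_root (f : ℤ[X]) (hf : Irreducible (f.map (Int.castRingHom ℚ))) {ε : ℝ} (hε : 0 < ε) :
    ∃ n₀ : ℕ, ∀ n : ℕ, n₀ ≤ n → (1 / (f.natDegree : ℝ) - ε) * n ≤ ∑ p ∈ RP f n, Real.log p := by
  classical
  set q : ℚ[X] := f.map (Int.castRingHom ℚ) with hq
  have hf0 : f ≠ 0 := by
    rintro rfl
    exact hf.ne_zero (by rw [hq, Polynomial.map_zero])
  have hdeg : q.natDegree = f.natDegree :=
    natDegree_map_eq_of_injective (RingHom.injective_int _) f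
  have hd : 0 < f.natDegree := by
    rw [← hdeg]
    exact hf.natDegree_pos
  set q' : ℚ[X] := q * C (q.leadingCoeff)⁻¹ with hq'
  have hm : q'.Monic := monic_mul_leadingCoeff_inv hf.ne_zero
  have hirr : Irreducible q' := irreducible_mul_leadingCoeff_inv.mpr hf
  obtain ⟨K, hK1, hK2, B, hB⟩ := Pool.Agent.H484R2.exists_rf q' hirr hm
  have hθ : aeval B.gen f = 0 := by
    have h1 : aeval B.gen q' = 0 := by
      rw [← hB]; exact minpoly.aeval _ _
    rw [hq', map_mul, aeval_C] at h1
    have h2 : (algebraMap ℚ K) (q.leadingCoeff)⁻¹ ≠ 0 := by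
      rw [Ne, map_eq_zero]
      exact inv_ne_zero (leadingCoeff_ne_zero.mpr hf.ne_zero)
    have h3 := (mul_eq_zero.mp h1).resolve_right h2
    rw [hq] at h3
    have h4 : (aeval B.gen) (Polynomial.map (Int.castRingHom ℚ) f) = aeval B.gen f := by
      rw [aeval_def, eval₂_map, aeval_def]
      congr 1
      exact RingHom.ext_int _ _
    rwa [h4] at h3
  have hfin : Module.finrank ℚ K = f.natDegree := by
    rw [B.finrank, ← B.natDegree_minpoly, hB, hq', natDegree_mul_leadingCoeff_inv _ hf.ne_zero, hdeg]
  have hcont : H332.PIT.Cont K := Pool.Agent.H484R2.continuation K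
  have hT := H332.PIT.TT_tendsto hcont
  set d : ℝ := (f.natDegree : ℝ) with hdr
  have hd0 : 0 < d := by
    rw [hdr]
    exact_mod_cast hd
  set A : ℕ := f.leadingCoeff.natAbs with hA
  have hA0 : A ≠ 0 := by
    rw [hA, Int.natAbs_ne_zero]
    exact leadingCoeff_ne_zero.mpr hf0
  -- the sum over primes dividing the leading coefficient
  have hmain : ∀ n : ℕ, H332.PIT.TT K n ≤ d * ∑ p ∈ RP f n, Real.log p + d * A * Real.log A := by
    intro n
    have h1 : H332.PIT.TT K n ≤ ∑ p ∈ (range (n + 1)).filter Nat.Prime,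
        (d * (if HasRoot f p then Real.log p else 0) + d * (if p ∣ A then Real.log A else 0)) := by
      unfold H332.PIT.TT
      refine sum_le_sum fun p hp => ?_
      rw [mem_filter] at hp
      have hl := Real.log_natCast_nonneg p
      have hc := H332.PIT.hc_cast_le (K := K) hp.2
      rw [hfin] at hc
      have hlA := Real.log_natCast_nonneg A
      have e1 : 0 ≤ d * (if HasRoot f p then Real.log p else 0) := by
        split_ifs
        · positivity
        · simp
      have e2 : 0 ≤ d * (if p ∣ A then Real.log A else 0) := by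
        split_ifs
        · positivity
        · simp
      by_cases hpA : p ∣ A
      · have h3 : Real.log p ≤ Real.log A := by
          apply Real.log_le_log
          · exact_mod_cast hp.2.pos
          · exact_mod_cast Nat.le_of_dvd (Nat.pos_of_ne_zero hA0) hpA
        rw [if_pos hpA]
        have h4 : (Nat.card (𝓞 K →+* ZMod p) : ℝ) * Real.log p ≤ d * Real.log A :=
          mul_le_mul hc h3 hl hd0.le
        linarith
      · by_cases hR : HasRoot f p
        · rw [if_pos hR]
          have h4 : (Nat.card (𝓞 K →+* ZMod p) : ℝ) * Real.log p ≤ d * Real.log p :=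
            mul_le_mul_of_nonneg_right hc hl
          linarith
        · have h5 : IsEmpty (𝓞 K →+* ZMod p) := by
            constructor
            intro φ
            apply hR
            refine root_of_hom f B.gen hθ hp.2 ?_ φ
            intro hdv
            apply hpA
            exact Int.natCast_dvd.mp hdv
          have h6 : Nat.card (𝓞 K →+* ZMod p) = 0 := Nat.card_of_isEmpty
          rw [h6, Nat.cast_zero, zero_mul]
          linarith
    refine h1.trans ?_
    rw [sum_add_distrib, ← mul_sum, ← mul_sum]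
    have h7 : ∑ p ∈ (range (n + 1)).filter Nat.Prime, (if HasRoot f p then Real.log p else 0) =
        ∑ p ∈ RP f n, Real.log p := by
      rw [← sum_filter, filter_filter]
      rfl
    have h8 : ∑ p ∈ (range (n + 1)).filter Nat.Prime, (if p ∣ A then Real.log A else 0) ≤
        A * Real.log A := by
      rw [← sum_filter, sum_const, nsmul_eq_mul]
      refine mul_le_mul_of_nonneg_right ?_ (Real.log_natCast_nonneg A)
      have h9 : (((range (n + 1)).filter Nat.Prime).filter fun p => p ∣ A).card ≤ A := by
        have h10 : (((range (n + 1)).filter Nat.Prime).filter fun p => p ∣ A) ⊆ Ioc 0 A := by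
          intro p hp
          rw [mem_filter, mem_filter] at hp
          rw [mem_Ioc]
          exact ⟨hp.1.2.pos, Nat.le_of_dvd (Nat.pos_of_ne_zero hA0) hp.2⟩
        have := card_le_card h10
        rwa [Nat.card_Ioc, Nat.sub_zero] at this
      exact_mod_cast h9
    rw [h7]
    have := mul_le_mul_of_nonneg_left h8 hd0.le
    linarith
  -- conclusion
  have h1 : ∀ᶠ n : ℕ in atTop, 1 - d * ε / 2 < H332.PIT.TT K n / n :=
    hT.eventually (lt_mem_nhds (by
      have : 0 < d * ε / 2 := by positivity
      linarith))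
  have h2 : ∀ᶠ n : ℕ in atTop, d * A * Real.log A ≤ d * ε / 2 * n := by
    have h3 := (tendsto_natCast_atTop_atTop (R := ℝ)).const_mul_atTop
      (show (0 : ℝ) < d * ε / 2 by positivity)
    exact h3.eventually_ge_atTop _
  obtain ⟨n₀, hn₀⟩ := eventually_atTop.mp (h1.and (h2.and (eventually_ge_atTop 1)))
  refine ⟨n₀, fun n hn => ?_⟩
  obtain ⟨g1, g2, g3⟩ := hn₀ n hn
  have hn0 : (0 : ℝ) < n := by
    have : 0 < n := g3
    exact_mod_cast this
  rw [lt_div_iff₀ hn0] at g1
  have g4 := hmain n
  have g5 : d * ((1 / d - ε) * n) ≤ d * ∑ p ∈ RP f n, Real.log p := by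
    have : d * ((1 / d - ε) * n) = n - d * ε * n := by
      field_simp
    rw [this]
    nlinarith
  exact le_of_mul_le_mul_left g5 hd0

end Pool.Agent.X50.LG
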