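import Pool.Agent.X50.LG.Pair

/-!
Subfamilies: the elements of the other sets are fixed.
-/

set_option autoImplicit false
set_option maxHeartbeats 4000000

namespace Pool.Agent.X50.LG

open Finset Polynomial

/-- the translate of a set -/
def sh (s : ℕ) (A : Finset ℕ) : Finset ℕ := A.image fun n => n + s

theorem card_sh (s : ℕ) (A : Finset ℕ) : (sh s A).card = A.card :=
  card_image_of_injective _ (add_left_injective s)

theorem sh_sub {s U N : ℕ} {A : Finset ℕ} (hA : A ⊆ Ioc U (U + N)) : sh s A ⊆ Ioc (U + s) (U + s + N) := by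
  intro n hn
  unfold sh at hn
  rw [mem_image] at hn
  obtain ⟨m, hm, rfl⟩ := hn
  have := mem_Ioc.mp (hA hm)
  rw [mem_Ioc]
  omega

/-- the smallest set of a family, all values translated by `s` -/
theorem min_shift {k : ℕ} (hk : 1 ≤ k) (f : ℤ[X]) (hf : Irreducible (f.map (Int.castRingHom ℚ)))
    {δ : ℝ} (hδ0 : 0 ≤ δ) (hδ : δ < 1 / (f.natDegree : ℝ)) :
    ∃ C : ℝ, 0 < C ∧ ∀ N : ℕ, 1 ≤ N → ∀ (s : ℕ) (U : Fin k → ℕ) (A : Fin k → Finset ℕ),
      (∀ i, A i ⊆ Ioc (U i) (U i + N)) →
      (∀ a : Fin k → ℕ, (∀ i, a i ∈ A i) → (f.eval (((∑ i, a i + s : ℕ)) : ℤ)).natAbs.Prime) →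
      ∃ i, ((A i).card : ℝ) ≤ C * (N : ℝ) ^ (1 / (1 + ((k : ℝ) - 1) * δ)) := by
  classical
  obtain ⟨C, hC, h⟩ := min_bound hk f hf hδ0 hδ
  refine ⟨C, hC, fun N hN s U A hA hgood => ?_⟩
  set z : Fin k := ⟨0, hk⟩ with hz
  have h1 := h N hN (fun i => if i = z then U i + s else U i)
    (fun i => if i = z then sh s (A i) else A i) ?_ ?_
  · obtain ⟨i, hi⟩ := h1
    refine ⟨i, ?_⟩
    by_cases hiz : i = z
    · simp only [hiz, if_true, card_sh] at hi
      rw [hiz]
      exact hi
    · simp only [hiz, if_false] at hi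
      exact hi
  · intro i
    by_cases hiz : i = z
    · simp only [hiz, if_true]
      exact sh_sub (hA z)
    · simp only [hiz, if_false]
      exact hA i
  · intro a ha
    have h2 := ha z
    simp only [if_true] at h2
    unfold sh at h2
    rw [mem_image] at h2
    obtain ⟨m, hm, hma⟩ := h2
    have h3 := hgood (Function.update a z m) ?_
    · rw [sum_update_of_mem (mem_univ z)] at h3
      have h4 : ∑ i, a i = m + ∑ i ∈ univ \ {z}, a i + s := by
        rw [← add_sum_erase univ a (mem_univ z), ← hma, sdiff_singleton_eq_erase]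
        ring
      rw [h4]
      exact h3
    · intro i
      by_cases hiz : i = z
      · rw [hiz, Function.update_self]
        exact hm
      · rw [Function.update_of_ne hiz]
        have := ha i
        simp only [hiz, if_false] at this
        exact this

/-- the exponents -/
theorem expo {d r : ℝ} (hd : 1 ≤ d) (hr : 1 ≤ r) {η : ℝ} (hη0 : 0 < η) (hη : η ≤ 1 / 2) :
    1 / (1 + (r - 1) * ((1 - η) / d)) ≤ d / (d + r - 1) + 2 * η := by
  have hd0 : 0 < d := by linarith
  have h1 : (1 - η) * (d + r - 1) / d ≤ 1 + (r - 1) * ((1 - η) / d) := by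
    rw [div_le_iff₀ hd0]
    have : (1 + (r - 1) * ((1 - η) / d)) * d = d + (r - 1) * (1 - η) := by
      field_simp
    rw [this]
    nlinarith
  have h2 : 0 < (1 - η) * (d + r - 1) / d := by
    have : 0 < 1 - η := by linarith
    have : 0 < d + r - 1 := by linarith
    positivity
  refine (one_div_le_one_div_of_le h2 h1).trans ?_
  have h3 : 0 < d + r - 1 := by linarith
  have h4 : 0 < 1 - η := by linarith
  have h5 : 1 / ((1 - η) * (d + r - 1) / d) = d / (d + r - 1) * (1 / (1 - η)) := by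
    field_simp
  rw [h5]
  have h6 : 1 / (1 - η) ≤ 1 + 2 * η := by
    rw [div_le_iff₀ h4]
    nlinarith
  have h7 : d / (d + r - 1) ≤ 1 := by
    rw [div_le_one h3]
    linarith
  have h8 : 0 ≤ d / (d + r - 1) := by positivity
  calc d / (d + r - 1) * (1 / (1 - η)) ≤ d / (d + r - 1) * (1 + 2 * η) :=
        mul_le_mul_of_nonneg_left h6 h8
    _ = d / (d + r - 1) + 2 * η * (d / (d + r - 1)) := by ring
    _ ≤ _ := by nlinarith

/-- one family size -/
theorem min_size (f : ℤ[X]) (hf : Irreducible (f.map (Int.castRingHom ℚ))) {ε : ℝ} (hε : 0 < ε)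
    (r : ℕ) (hr : 1 ≤ r) :
    ∃ C : ℝ, 0 < C ∧ ∀ N : ℕ, 1 ≤ N → ∀ (s : ℕ) (U : Fin r → ℕ) (A : Fin r → Finset ℕ),
      (∀ i, A i ⊆ Ioc (U i) (U i + N)) →
      (∀ a : Fin r → ℕ, (∀ i, a i ∈ A i) → (f.eval (((∑ i, a i + s : ℕ)) : ℤ)).natAbs.Prime) →
      ∃ i, ((A i).card : ℝ) ≤
        C * (N : ℝ) ^ ((f.natDegree : ℝ) / ((f.natDegree : ℝ) + r - 1) + ε) := by
  have hd : 0 < f.natDegree := by
    have := hf.natDegree_pos
    rwa [natDegree_map_eq_of_injective (RingHom.injective_int _) f] at this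
  have hd1 : (1 : ℝ) ≤ f.natDegree := by exact_mod_cast hd
  have hd0 : (0 : ℝ) < f.natDegree := by linarith
  have hr1 : (1 : ℝ) ≤ r := by exact_mod_cast hr
  set η : ℝ := min (ε / 2) (1 / 2) with hη
  have hη0 : 0 < η := lt_min (by positivity) (by norm_num)
  have hη1 : η ≤ 1 / 2 := min_le_right _ _
  have hη2 : 2 * η ≤ ε := by
    have := min_le_left (ε / 2) (1 / 2 : ℝ)
    linarith
  obtain ⟨C, hC, h⟩ := min_shift hr f hf (δ := (1 - η) / f.natDegree)
    (div_nonneg (by linarith) hd0.le) (div_lt_div_of_pos_right (by linarith) hd0)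
  refine ⟨C, hC, fun N hN s U A hA hgood => ?_⟩
  obtain ⟨i, hi⟩ := h N hN s U A hA hgood
  refine ⟨i, hi.trans ?_⟩
  refine mul_le_mul_of_nonneg_left ?_ hC.le
  refine Real.rpow_le_rpow_of_exponent_le (by exact_mod_cast hN) ?_
  have := expo hd1 hr1 hη0 hη1
  linarith

/-- all subfamilies -/
theorem min_sub (f : ℤ[X]) (hf : Irreducible (f.map (Int.castRingHom ℚ))) {ε : ℝ} (hε : 0 < ε)
    (k : ℕ) :
    ∃ C : ℝ, 0 < C ∧ ∀ N : ℕ, 1 ≤ N → ∀ (U : Fin k → ℕ) (A : Fin k → Finset ℕ),
      (∀ i, (A i).Nonempty) → (∀ i, A i ⊆ Ioc (U i) (U i + N)) →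
      (∀ a : Fin k → ℕ, (∀ i, a i ∈ A i) → (f.eval (((∑ i, a i : ℕ)) : ℤ)).natAbs.Prime) →
      ∀ I : Finset (Fin k), I.Nonempty → ∃ i ∈ I, ((A i).card : ℝ) ≤
        C * (N : ℝ) ^ ((f.natDegree : ℝ) / ((f.natDegree : ℝ) + I.card - 1) + ε) := by
  classical
  choose C hC h using min_size f hf hε
  refine ⟨∑ r ∈ (range (k + 1)).attach, (if hr : 1 ≤ r.1 then C r.1 hr else 0) + 1, ?_, ?_⟩
  · have : 0 ≤ ∑ r ∈ (range (k + 1)).attach, (if hr : 1 ≤ r.1 then C r.1 hr else 0) := by
      refine sum_nonneg fun r _ => ?_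
      split_ifs with hr
      · exact (hC _ hr).le
      · exact le_rfl
    linarith
  intro N hN U A hne hA hgood I hI
  have hr : 1 ≤ I.card := card_pos.mpr hI
  set e : Fin I.card ≃ I := I.equivFin.symm with he
  choose a₀ ha₀ using hne
  have h1 := h I.card hr N hN (∑ i ∈ Iᶜ, a₀ i) (fun j => U (e j)) (fun j => A (e j))
    (fun j => hA (e j)) ?_
  · obtain ⟨j, hj⟩ := h1
    refine ⟨(e j : Fin k), (e j).2, hj.trans ?_⟩
    refine mul_le_mul_of_nonneg_right ?_ (by positivity)
    have hmem : (⟨I.card, by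
        rw [mem_range]
        have := card_le_univ I
        rw [Fintype.card_fin] at this
        omega⟩ : {x // x ∈ range (k + 1)}) ∈ (range (k + 1)).attach := mem_attach _ _
    have h2 := single_le_sum (f := fun r : {x // x ∈ range (k + 1)} =>
      if hr : 1 ≤ r.1 then C r.1 hr else 0) (fun r _ => by
        split_ifs with hr
        · exact (hC _ hr).le
        · exact le_rfl) hmem
    simp only [hr, dif_pos] at h2
    linarith
  · intro b hb
    have h2 := hgood (fun i => if hi : i ∈ I then b (e.symm ⟨i, hi⟩) else a₀ i) ?_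
    · have h3 : ∑ i, (if hi : i ∈ I then b (e.symm ⟨i, hi⟩) else a₀ i) =
          ∑ j, b j + ∑ i ∈ Iᶜ, a₀ i := by
        rw [← sum_add_sum_compl I]
        congr 1
        · rw [← sum_attach, ← Equiv.sum_comp e.symm]
          refine sum_bij' (fun x _ => x) (fun x _ => x) ?_ ?_ ?_ ?_ ?_
          · intro x _
            exact mem_univ _
          · intro x _
            exact mem_attach _ _
          · intro x _
            rfl
          · intro x _
            rfl
          · intro x _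
            simp only [x.2, dif_pos, Subtype.coe_eta]
        · refine sum_congr rfl fun i hi => ?_
          rw [mem_compl] at hi
          rw [dif_neg hi]
      rw [h3] at h2
      exact h2
    · intro i
      by_cases hi : i ∈ I
      · rw [dif_pos hi]
        have := hb (e.symm ⟨i, hi⟩)
        rwa [Equiv.apply_symm_apply] at this
      · rw [dif_neg hi]
        exact ha₀ i

/-- all pairs -/
theorem pair_sub (f : ℤ[X]) (hf : Irreducible (f.map (Int.castRingHom ℚ))) (k : ℕ) :
    ∃ C : ℝ, 0 < C ∧ ∀ N : ℕ, 1 ≤ N → ∀ (U : Fin k → ℕ) (A : Fin k → Finset ℕ),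
      (∀ i, (A i).Nonempty) → (∀ i, A i ⊆ Ioc (U i) (U i + N)) →
      (∀ a : Fin k → ℕ, (∀ i, a i ∈ A i) → (f.eval (((∑ i, a i : ℕ)) : ℤ)).natAbs.Prime) →
      ∀ i j : Fin k, i ≠ j → ((A i).card : ℝ) * (A j).card ≤ C * N * (1 + Real.log N) ^ 2 := by
  classical
  obtain ⟨C, hC, h⟩ := pair_bound f hf
  refine ⟨C, hC, fun N hN U A hne hA hgood i j hij => ?_⟩
  choose a₀ ha₀ using hne
  set s : ℕ := ∑ l ∈ (univ.erase i).erase j, a₀ l with hs
  have h1 := h N hN (U i) (U j + s) (A i) (sh s (A j)) (hA i) (sh_sub (hA j)) ?_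
  · rw [card_sh] at h1
    exact h1
  · intro a ha b hb
    unfold sh at hb
    rw [mem_image] at hb
    obtain ⟨m, hm, rfl⟩ := hb
    have h2 := hgood (fun l => if l = i then a else if l = j then m else a₀ l) ?_
    · have h3 : ∑ l, (if l = i then a else if l = j then m else a₀ l) = a + (m + s) := by
        rw [← add_sum_erase univ _ (mem_univ i), if_pos rfl,
          ← add_sum_erase (univ.erase i) _ (mem_erase.mpr ⟨hij.symm, mem_univ j⟩),
          if_neg hij.symm, if_pos rfl]
        congr 2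
        rw [hs]
        refine sum_congr rfl fun l hl => ?_
        rw [mem_erase, mem_erase] at hl
        rw [if_neg hl.2.1, if_neg hl.1]
      rw [h3] at h2
      exact h2
    · intro l
      by_cases h3 : l = i
      · rw [if_pos h3, h3]
        exact ha
      · rw [if_neg h3]
        by_cases h4 : l = j
        · rw [if_pos h4, h4]
          exact hm
        · rw [if_neg h4]
          exact ha₀ l

end Pool.Agent.X50.LG
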